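import Pool.Agent.V5helper49.LR.Stm2

/-!
# Project LR (helper49): LR-RHO
-/

set_option autoImplicit false

namespace Pool.Agent.V5helper6.LR

open Finset MeasureTheory ProbabilityTheory Filter
open scoped ENNReal Topology
open Pool.Agent.V5helper49.LR
open Pool.Agent.V5helper42.RS (EE S PP W model)

theorem exp_le_one_sub (δ : ℝ) (h0 : 0 ≤ δ) (h1 : δ ≤ 1 / 2) : Real.exp (-(2 * δ)) ≤ 1 - δ := by
  have h2 : 1 + 2 * δ ≤ Real.exp (2 * δ) := by linarith [Real.add_one_le_exp (2 * δ)]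
  have h3 : 0 < Real.exp (2 * δ) := Real.exp_pos _
  rw [Real.exp_neg, inv_le_iff_one_le_mul₀ h3]
  nlinarith

open Classical in
theorem card_av (T : Finset ℕ) (p : ℕ) :
    (p : ℝ) - T.card ≤ (((range p).filter (fun x => av T p x)).card : ℝ) := by
  have h1 := Finset.card_filter_add_card_filter_not (s := range p) (fun x => av T p x)
  have h2 : ((range p).filter (fun x => ¬ av T p x)).card ≤ T.card := by
    calc _ ≤ (T.image (fun t => t % p)).card := by
          apply card_le_card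
          intro x hx
          obtain ⟨-, hx2⟩ := mem_filter.1 hx
          unfold av at hx2
          push Not at hx2
          obtain ⟨t, ht, ht2⟩ := hx2
          exact mem_image.2 ⟨t, ht, ht2⟩
      _ ≤ T.card := card_image_le
  rw [card_range] at h1
  have h3 : (p : ℝ) = (((range p).filter (fun x => av T p x)).card : ℝ) +
      (((range p).filter (fun x => ¬ av T p x)).card : ℝ) := by exact_mod_cast h1.symm
  have h4 : (((range p).filter (fun x => ¬ av T p x)).card : ℝ) ≤ T.card := by exact_mod_cast h2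
  linarith

theorem A1_full (T V B : Finset ℕ) : ∀ (l : List ℕ), (∀ p ∈ l, 0 < p ∧ 2 * T.card ≤ p) → ∀ K : Finset ℕ, V ⊆ K →
    Real.exp (-(2 * (T.card : ℝ) * (l.map (fun p : ℕ => 1 / (p : ℝ))).sum)) ≤ A1 T V B l K := by
  intro l
  induction l with
  | nil =>
    intro _ K hK
    simp [A1, hK]
  | cons p l ih =>
    intro hl K hK
    obtain ⟨hp, hp2⟩ := hl p (by simp)
    have ih' := ih (fun q hq => hl q (by simp [hq]))
    have hpR : (0 : ℝ) < p := by exact_mod_cast hp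
    have hT : (T.card : ℝ) / p ≤ 1 / 2 := by
      rw [div_le_iff₀ hpR]
      have : (2 : ℝ) * T.card ≤ p := by exact_mod_cast hp2
      linarith
    set E := Real.exp (-(2 * (T.card : ℝ) * (l.map (fun p : ℕ => 1 / (p : ℝ))).sum)) with hE
    have hEpos : 0 < E := Real.exp_pos _
    rw [A1]
    have h1 : ∑ x ∈ range p, (open Classical in if av T p x then E else 0) ≤
        ∑ x ∈ range p, (open Classical in if av T p x then A1 T V B l (K ∪ hit V B p x) else 0) := by
      apply sum_le_sum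
      intro x _
      split_ifs
      · exact ih' _ (hK.trans subset_union_left)
      · exact le_rfl
    have h2 : ((p : ℝ) - T.card) * E ≤ ∑ x ∈ range p, (open Classical in if av T p x then E else 0) := by
      rw [← sum_filter, sum_const, nsmul_eq_mul]
      exact mul_le_mul_of_nonneg_right (card_av T p) hEpos.le
    have h3 := exp_le_one_sub ((T.card : ℝ) / p) (by positivity) hT
    calc Real.exp (-(2 * (T.card : ℝ) * ((p :: l).map (fun p : ℕ => 1 / (p : ℝ))).sum))
        = Real.exp (-(2 * ((T.card : ℝ) / p))) * E := by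
          rw [hE, ← Real.exp_add]
          congr 1
          simp only [List.map_cons, List.sum_cons]
          ring
      _ ≤ (1 - (T.card : ℝ) / p) * E := mul_le_mul_of_nonneg_right h3 hEpos.le
      _ = (1 / (p : ℝ)) * (((p : ℝ) - T.card) * E) := by field_simp
      _ ≤ _ := by
          apply mul_le_mul_of_nonneg_left (h2.trans h1) (by positivity)

theorem INS_all (h1 : S_INS1) (T V B : Finset ℕ) (H w : ℕ) (hR : Reg T V B H w) (l : List ℕ)
    (hl : ∀ p ∈ l, 0 < p) (φ : ℝ) (hφ0 : 0 ≤ φ)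
    (hφ : φ = 1 - Real.exp ((V.card : ℝ) / w - (l.map (fun p : ℕ => open Classical in if p ∈ B then 1 / (p : ℝ) else 0)).sum)) :
    ∀ V' : Finset ℕ, V' ⊆ V → φ ^ V'.card * A1 T V B l V' ≤ A1 T V B l ∅ := by
  intro V'
  induction V' using Finset.induction_on with
  | empty => intro _; simp
  | insert v V' hv ih =>
    intro hsub
    have h2 := ih (fun x hx => hsub (mem_insert_of_mem hx))
    have h3 := h1 T V B H w hR l hl V' v (hsub (mem_insert_self _ _))
    rw [← hφ] at h3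
    rw [card_insert_of_notMem hv, pow_succ, mul_assoc]
    calc φ ^ V'.card * (φ * A1 T V B l (insert v V')) ≤ φ ^ V'.card * A1 T V B l V' :=
          mul_le_mul_of_nonneg_left h3 (pow_nonneg hφ0 _)
      _ ≤ _ := h2

/-- crude upper bound for the sum of the reciprocals of the primes -/
theorem sum_recip (n : ℕ) : Real.exp (∑ p ∈ (Icc 1 n).filter Nat.Prime, 1 / (p : ℝ)) ≤ W n := by
  rw [Real.exp_sum]
  unfold Pool.Agent.V5helper42.RS.W
  apply Finset.prod_le_prod
  · intro p _; exact (Real.exp_pos _).le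
  · intro p hp
    have hp2 := (mem_filter.1 hp).2
    have h2 : (2 : ℝ) ≤ p := by exact_mod_cast hp2.two_le
    have h3 : (p : ℝ)⁻¹ ≤ 1 / 2 := by
      rw [one_div]
      exact inv_anti₀ (by norm_num) h2
    have h4 : 0 < 1 - (p : ℝ)⁻¹ := by linarith
    have h5 : 1 - (p : ℝ)⁻¹ ≤ Real.exp (-(p : ℝ)⁻¹) := by
      linarith [Real.add_one_le_exp (-(p : ℝ)⁻¹)]
    rw [one_div, le_inv_comm₀ (Real.exp_pos _) h4, ← Real.exp_neg]
    exact h5

theorem t_RHO (h1 : S_INS1) (h2 : S_MAS) : S_RHO := by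
  intro ε h0 h1'
  obtain ⟨X₁, hM⟩ := h2 ε h0 h1'
  obtain ⟨C, hC, hW⟩ := Pool.Agent.V5helper42.RS.W_upper
  have hLt : Tendsto (fun X : ℕ => Real.log (X : ℝ)) atTop atTop :=
    Real.tendsto_log_atTop.comp tendsto_natCast_atTop_atTop
  have h3t : Tendsto (fun X : ℕ => 3 * X) atTop atTop :=
    tendsto_id.const_mul_atTop' (by norm_num)
  have hW' := h3t.eventually hW
  have ea : ∀ᶠ L : ℝ in atTop, (24 : ℝ) ≤ L ^ (ε / 3) :=
    (tendsto_rpow_atTop (by linarith)).eventually_ge_atTop _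
  have eb : ∀ᶠ L : ℝ in atTop, (6 : ℝ) ≤ L ^ (1 - ε / 3) :=
    (tendsto_rpow_atTop (by linarith)).eventually_ge_atTop _
  have ec := (isLittleO_log_rpow_atTop (show (0 : ℝ) < 1 / 2 by norm_num)).bound (show (0 : ℝ) < 1 / 8 by norm_num)
  have ed : ∀ᶠ L : ℝ in atTop, (16 : ℝ) ≤ L ^ (1 / 2 : ℝ) :=
    (tendsto_rpow_atTop (by norm_num)).eventually_ge_atTop _
  have ef := (isLittleO_rpow_exp_atTop (2 - ε)).bound (show (0 : ℝ) < 1 / 2 by norm_num)
  have hev := hLt.eventually (ea.and (eb.and (ec.and (ed.and (ef.and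
    ((eventually_ge_atTop (2 * C)).and (eventually_ge_atTop (8 : ℝ))))))))
  obtain ⟨X₂, hX₂⟩ := eventually_atTop.1 (hW'.and (hev.and ((eventually_ge_atTop X₁).and (eventually_ge_atTop 3))))
  refine ⟨X₂, ?_⟩
  intro X hX H T V hH hT hV hTV hTc
  obtain ⟨hWX, ⟨ha, hb, hc, hd, hf, hg, h8⟩, hX1, hX3⟩ := hX₂ X hX
  set L := Real.log (X : ℝ) with hLdef
  have hL0 : (0 : ℝ) < L := by linarith
  have hL1 : (1 : ℝ) ≤ L := by linarith
  have hlogL : 0 ≤ Real.log L := Real.log_nonneg hL1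
  have hX3R : (3 : ℝ) ≤ X := by exact_mod_cast hX3
  have hXpos : (0 : ℝ) < X := by linarith
  rw [Real.norm_of_nonneg hlogL, Real.norm_of_nonneg (Real.rpow_nonneg hL0.le _)] at hc
  rw [Real.norm_of_nonneg (Real.rpow_nonneg hL0.le _), Real.norm_of_nonneg (Real.exp_pos L).le,
    hLdef, Real.exp_log hXpos, ← hLdef] at hf
  -- the consequences of MAS
  obtain ⟨-, hM2, -, hM4, hM5⟩ := hM X hX1 H (H + 1) hH (Nat.lt_succ_self H) (by
    have : ((H + 1 : ℕ) : ℝ) ≤ X := by push_cast; linarith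
    exact_mod_cast this)
  rw [← hLdef] at hM2
  have hR : Reg T V (Bs ε X) H (ww X) := by
    refine ⟨fun t ht => ?_, fun v hv => ?_, hTV, fun p hp => ?_, hM5⟩
    · exact Nat.lt_succ_iff.1 (mem_range.1 (hT ht))
    · exact Nat.lt_succ_iff.1 (mem_range.1 (hV hv))
    · exact (mem_Ioc.1 (mem_filter.1 hp).1).1.le
  have hlpos : ∀ p ∈ (QQ X).toList, 0 < p := by
    intro p hp
    rw [mem_toList] at hp
    exact ((mem_filter.1 hp).2).pos
  -- the sum
  have hsum : ((QQ X).toList.map (fun p : ℕ => open Classical in if p ∈ Bs ε X then 1 / (p : ℝ) else 0)).sum =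
      ∑ p ∈ Bs ε X, 1 / (p : ℝ) := by
    rw [Finset.sum_map_toList, ← sum_filter]
    apply sum_congr _ (fun _ _ => rfl)
    ext p
    rw [mem_filter]
    exact ⟨fun h => h.2, fun h => ⟨hM4 h, h⟩⟩
  have hVc : (V.card : ℝ) ≤ (H : ℝ) + 1 := by
    have := card_le_card hV
    rw [card_range] at this
    exact_mod_cast this
  have hwpos : (0 : ℝ) < (ww X : ℝ) := by
    have : 0 < ww X := by omega
    exact_mod_cast this
  have hVw : (V.card : ℝ) / ww X ≤ 1 := by
    rw [div_le_one hwpos]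
    have : ((8 * (H + 1) : ℕ) : ℝ) ≤ ww X := by exact_mod_cast hM5
    push_cast at this
    have hH0 : (0 : ℝ) ≤ H := Nat.cast_nonneg H
    linarith
  set φ : ℝ := 1 - Real.exp ((V.card : ℝ) / ww X - ((QQ X).toList.map (fun p : ℕ => open Classical in if p ∈ Bs ε X then 1 / (p : ℝ) else 0)).sum) with hφ
  set δ : ℝ := 3 * L ^ (-(1 - ε / 3)) with hδ
  have hδ0 : 0 ≤ δ := by positivity
  have hδ1 : δ ≤ 1 / 2 := by
    rw [hδ, Real.rpow_neg hL0.le, ← div_eq_mul_inv, div_le_iff₀ (by linarith)]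
    linarith
  have hφδ : 1 - δ ≤ φ := by
    rw [hφ, hsum, sub_eq_add_neg ((V.card : ℝ) / ww X), Real.exp_add]
    have h3 : Real.exp ((V.card : ℝ) / ww X) ≤ 3 :=
      (Real.exp_le_exp.2 hVw).trans (by linarith [Real.exp_one_lt_d9])
    have h4 : Real.exp ((V.card : ℝ) / ww X) * Real.exp (-∑ p ∈ Bs ε X, 1 / (p : ℝ)) ≤ δ := by
      rw [hδ]
      exact mul_le_mul h3 hM2 (Real.exp_pos _).le (by norm_num)
    linarith
  have hφe : Real.exp (-(2 * δ)) ≤ φ := (exp_le_one_sub δ hδ0 hδ1).trans hφδ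
  have hφ0 : 0 ≤ φ := (Real.exp_pos _).le.trans hφe
  have hins := INS_all h1 T V (Bs ε X) H (ww X) hR (QQ X).toList hlpos φ hφ0 hφ V (Subset.refl V)
  -- the power
  have hpow : Real.exp (-(L ^ (1 - ε / 3) / 2)) ≤ φ ^ V.card := by
    calc Real.exp (-(L ^ (1 - ε / 3) / 2)) ≤ Real.exp ((V.card : ℝ) * (-(2 * δ))) := by
          apply Real.exp_le_exp.2
          have h5 : (V.card : ℝ) * (2 * δ) ≤ L ^ (1 - ε / 3) / 2 := by
            have h6 : (V.card : ℝ) ≤ 2 * L ^ (2 - ε) := by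
              have : (1 : ℝ) ≤ L ^ (2 - ε) := Real.one_le_rpow hL1 (by linarith)
              linarith
            have h7 : L ^ (2 - ε) * L ^ (-(1 - ε / 3)) * L ^ (ε / 3) = L ^ (1 - ε / 3) := by
              rw [← Real.rpow_add hL0, ← Real.rpow_add hL0]; congr 1; ring
            have h8' : 0 ≤ L ^ (2 - ε) * L ^ (-(1 - ε / 3)) := by positivity
            calc (V.card : ℝ) * (2 * δ) ≤ (2 * L ^ (2 - ε)) * (2 * δ) :=
                  mul_le_mul_of_nonneg_right h6 (by linarith)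
              _ = 12 * (L ^ (2 - ε) * L ^ (-(1 - ε / 3))) := by rw [hδ]; ring
              _ ≤ (L ^ (2 - ε) * L ^ (-(1 - ε / 3)) * L ^ (ε / 3)) / 2 := by nlinarith
              _ = L ^ (1 - ε / 3) / 2 := by rw [h7]
          linarith
      _ = Real.exp (-(2 * δ)) ^ V.card := by rw [Real.exp_nat_mul]
      _ ≤ φ ^ V.card := pow_le_pow_left₀ (Real.exp_pos _).le hφe _
  -- the rest
  have h50 : L ^ (1 / 50 : ℝ) ≤ L ^ (1 / 2 : ℝ) / 8 * 8 := by
    have : L ^ (1 / 50 : ℝ) ≤ L ^ (1 / 2 : ℝ) := Real.rpow_le_rpow_of_exponent_le hL1 (by norm_num)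
    linarith
  have hsq : L ^ (1 / 2 : ℝ) * L ^ (1 / 2 : ℝ) = L := by
    rw [← Real.rpow_add hL0]; norm_num
  have hTz : 2 * T.card ≤ z1 X := by
    unfold z1
    apply Nat.le_floor
    push_cast
    rw [← hLdef]
    nlinarith
  have hTp : ∀ p ∈ (QQ X).toList, 0 < p ∧ 2 * T.card ≤ p := by
    intro p hp
    refine ⟨hlpos p hp, ?_⟩
    rw [mem_toList] at hp
    have := (mem_Ioc.1 (mem_filter.1 hp).1).1
    omega
  have hfull := A1_full T V (Bs ε X) (QQ X).toList hTp V (Subset.refl V)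
  rw [Finset.sum_map_toList] at hfull
  have hQsum : ∑ p ∈ QQ X, 1 / (p : ℝ) ≤ 2 * Real.log L := by
    have h9 : ∑ p ∈ QQ X, 1 / (p : ℝ) ≤ ∑ p ∈ (Icc 1 (3 * X)).filter Nat.Prime, 1 / (p : ℝ) := by
      apply sum_le_sum_of_subset_of_nonneg
      · intro p hp
        obtain ⟨h10, h11⟩ := mem_filter.1 hp
        exact mem_filter.2 ⟨mem_Icc.2 ⟨h11.pos, (mem_Ioc.1 h10).2⟩, h11⟩
      · intro p _ _; positivity
    refine h9.trans ?_
    rw [← Real.exp_le_exp]
    refine (sum_recip (3 * X)).trans (hWX.trans ?_)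
    have h12 : Real.log ((3 * X : ℕ) : ℝ) ≤ 2 * L := by
      push_cast
      rw [Real.log_mul (by norm_num) hXpos.ne']
      have : Real.log 3 ≤ L := Real.log_le_log (by norm_num) hX3R
      linarith
    have h13 : Real.exp (2 * Real.log L) = L ^ 2 := by
      rw [mul_comm, Real.exp_mul, Real.exp_log hL0]
      norm_num
    rw [h13]
    calc C * Real.log ((3 * X : ℕ) : ℝ) ≤ C * (2 * L) := mul_le_mul_of_nonneg_left h12 hC.le
      _ = (2 * C) * L := by ring
      _ ≤ L * L := mul_le_mul_of_nonneg_right hg hL0.le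
      _ = L ^ 2 := by ring
  have hrest : Real.exp (-(L ^ (1 - ε / 3) / 2)) ≤ A1 T V (Bs ε X) (QQ X).toList V := by
    refine le_trans ?_ hfull
    apply Real.exp_le_exp.2
    apply neg_le_neg
    have hS0 : 0 ≤ ∑ p ∈ QQ X, 1 / (p : ℝ) := sum_nonneg (fun p _ => by positivity)
    have h14 : L ^ (1 / 50 : ℝ) * L ^ (1 / 2 : ℝ) ≤ L ^ (1 - ε / 3) := by
      rw [← Real.rpow_add hL0]
      exact Real.rpow_le_rpow_of_exponent_le hL1 (by linarith)
    have hTc0 : (0 : ℝ) ≤ T.card := Nat.cast_nonneg _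
    calc 2 * (T.card : ℝ) * ∑ p ∈ QQ X, 1 / (p : ℝ) ≤ 2 * L ^ (1 / 50 : ℝ) * (2 * Real.log L) := by
          apply mul_le_mul (by linarith) hQsum hS0 (by positivity)
      _ ≤ 2 * L ^ (1 / 50 : ℝ) * (2 * (1 / 8 * L ^ (1 / 2 : ℝ))) := by
          apply mul_le_mul_of_nonneg_left _ (by positivity)
          linarith
      _ = (L ^ (1 / 50 : ℝ) * L ^ (1 / 2 : ℝ)) / 2 := by ring
      _ ≤ L ^ (1 - ε / 3) / 2 := by linarith
  calc Real.exp (-L ^ (1 - ε / 3)) = Real.exp (-(L ^ (1 - ε / 3) / 2)) * Real.exp (-(L ^ (1 - ε / 3) / 2)) := by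
        rw [← Real.exp_add]; congr 1; ring
    _ ≤ φ ^ V.card * A1 T V (Bs ε X) (QQ X).toList V :=
        mul_le_mul hpow hrest (Real.exp_pos _).le (pow_nonneg hφ0 _)
    _ ≤ _ := hins

end Pool.Agent.V5helper6.LR
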