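import Pool.Agent.V5helper49.LR.Stm2
import Pool.Agent.Cov.PNT

/-!
# Project LR (helper49): LR-LOW
-/

set_option autoImplicit false

namespace Pool.Agent.V5helper6.LR

open Finset MeasureTheory ProbabilityTheory Filter
open scoped ENNReal Topology
open Pool.Agent.V5helper49.LR
open Pool.Agent.V5helper42.RS (EE S PP W model)

theorem run_of_ex (A : Set ℕ) (k n d : ℕ) (hd : 1 ≤ d)
    (h : Ex A n ((k - 1) * d) ((range k).image (fun i => i * d))) : Run A k n d := by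
  refine ⟨hd, ?_, ?_⟩
  · intro i hi
    refine (h (i * d) (Nat.mul_le_mul_right d (by omega))).2 ?_
    exact mem_image.2 ⟨i, mem_range.2 hi, rfl⟩
  · intro m hm h1 h2
    have h3 := (h (m - n) (by omega)).1 (by
      have : n + (m - n) = m := by omega
      rw [this]; exact hm)
    obtain ⟨i, hi, hi2⟩ := mem_image.1 h3
    refine ⟨i, mem_range.1 hi, ?_⟩
    have : i * d = m - n := hi2
    omega

theorem adm (k : ℕ) (p : ℕ) (hp : p.Prime) :
    ∃ b < p, ∀ t ∈ (range k).image (fun i => i * primorial k), t % p ≠ b := by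
  rcases le_or_gt p k with h | h
  · refine ⟨1, hp.one_lt, ?_⟩
    intro t ht
    obtain ⟨i, hi, rfl⟩ := mem_image.1 ht
    have h1 : p ∣ primorial k := by
      unfold primorial
      exact Finset.dvd_prod_of_mem _ (by simp [hp]; omega)
    have h2 : (i * primorial k) % p = 0 := Nat.mod_eq_zero_of_dvd (h1.mul_left i)
    show (i * primorial k) % p ≠ 1
    omega
  · have hc : (((range k).image (fun i => i * primorial k)).image (fun t => t % p)).card < (range p).card := by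
      calc _ ≤ ((range k).image (fun i => i * primorial k)).card := card_image_le
        _ ≤ (range k).card := card_image_le
        _ = k := card_range k
        _ < p := h
        _ = _ := (card_range p).symm
    obtain ⟨b, hb, hb2⟩ := Finset.exists_mem_notMem_of_card_lt_card hc
    refine ⟨b, mem_range.1 hb, ?_⟩
    intro t ht h3
    exact hb2 (mem_image.2 ⟨t, ht, h3⟩)

/-- the length of the run -/
noncomputable def kk (ε L : ℝ) : ℕ := ⌊(2 - ε) * Real.log L⌋₊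

theorem lemA (ε : ℝ) (h0 : 0 < ε) (h1 : ε ≤ 1) : ∀ᶠ L : ℝ in atTop,
    1 ≤ kk ε L ∧ (kk ε L : ℝ) ≤ L ^ (1 / 50 : ℝ) ∧
    (((kk ε L - 1) * primorial (kk ε L) : ℕ) : ℝ) ≤ L ^ (2 - ε / 2) ∧
    L ^ (2 - ε / 2) ≤ Real.exp L := by
  have htend : Tendsto (fun L : ℝ => kk ε L) atTop atTop :=
    tendsto_nat_floor_atTop.comp (Real.tendsto_log_atTop.const_mul_atTop (by linarith))
  have htendR : Tendsto (fun L : ℝ => (kk ε L : ℝ)) atTop atTop :=
    tendsto_natCast_atTop_atTop.comp htend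
  have e1 := htend.eventually_ge_atTop 1
  have e2 : ∀ᶠ y : ℝ in atTop, Chebyshev.theta y / y < 1 + ε / 8 :=
    (tendsto_order.1 Pool.Agent.Cov.PNT.theta_div_tendsto).2 _ (by linarith)
  have e2' := htendR.eventually e2
  have e3 := (isLittleO_log_rpow_atTop (show (0 : ℝ) < ε / 4 by linarith)).bound (show (0 : ℝ) < 1 / 2 by norm_num)
  have e4 := (isLittleO_log_rpow_atTop (show (0 : ℝ) < 1 / 50 by norm_num)).bound (show (0 : ℝ) < 1 / 2 by norm_num)
  have e5 := (isLittleO_rpow_exp_atTop (2 - ε / 2)).bound (show (0 : ℝ) < 1 by norm_num)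
  filter_upwards [e1, e2', e3, e4, e5, eventually_ge_atTop (1 : ℝ)] with L h1' h2 h3 h4 h5 h6
  have hL0 : (0 : ℝ) < L := by linarith
  have hlog : 0 ≤ Real.log L := Real.log_nonneg h6
  rw [Real.norm_of_nonneg hlog, Real.norm_of_nonneg (Real.rpow_nonneg hL0.le _)] at h3 h4
  rw [Real.norm_of_nonneg (Real.rpow_nonneg hL0.le _), Real.norm_of_nonneg (Real.exp_pos L).le, one_mul] at h5
  have hkle : (kk ε L : ℝ) ≤ (2 - ε) * Real.log L :=
    Nat.floor_le (mul_nonneg (by linarith) hlog)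
  have hkle2 : (kk ε L : ℝ) ≤ 2 * Real.log L := by nlinarith
  have hk1 : (1 : ℝ) ≤ kk ε L := by exact_mod_cast h1'
  refine ⟨h1', by linarith, ?_, h5⟩
  have hth : Chebyshev.theta (kk ε L) ≤ (1 + ε / 8) * kk ε L := by
    have := h2.le
    rwa [div_le_iff₀ (by linarith)] at this
  have hth2 : Chebyshev.theta (kk ε L) = Real.log (primorial (kk ε L)) := by
    rw [Chebyshev.theta_eq_log_primorial, Nat.floor_natCast]
  have hpp : (0 : ℝ) < primorial (kk ε L) := by exact_mod_cast primorial_pos _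
  have hpr : (primorial (kk ε L) : ℝ) ≤ L ^ (2 - 3 * ε / 4) := by
    rw [← Real.exp_log hpp, ← hth2, Real.rpow_def_of_pos hL0]
    apply Real.exp_le_exp.2
    calc Chebyshev.theta (kk ε L) ≤ (1 + ε / 8) * kk ε L := hth
      _ ≤ (1 + ε / 8) * ((2 - ε) * Real.log L) := by
          apply mul_le_mul_of_nonneg_left hkle; linarith
      _ = ((1 + ε / 8) * (2 - ε)) * Real.log L := by ring
      _ ≤ (2 - 3 * ε / 4) * Real.log L := by
          apply mul_le_mul_of_nonneg_right _ hlog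
          nlinarith [sq_nonneg ε]
      _ = Real.log L * (2 - 3 * ε / 4) := by ring
  calc (((kk ε L - 1) * primorial (kk ε L) : ℕ) : ℝ) ≤ ((kk ε L * primorial (kk ε L) : ℕ) : ℝ) := by
        exact_mod_cast Nat.mul_le_mul_right _ (by omega)
    _ = (kk ε L : ℝ) * primorial (kk ε L) := by push_cast; ring
    _ ≤ L ^ (ε / 4) * L ^ (2 - 3 * ε / 4) := by
        apply mul_le_mul _ hpr hpp.le (Real.rpow_nonneg hL0.le _)
        linarith
    _ = L ^ (2 - ε / 2) := by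
        rw [← Real.rpow_add hL0]; congr 1; ring

theorem log_pow (j : ℕ) : Real.log ((2 ^ (j ^ 4) : ℕ) : ℝ) = (j : ℝ) ^ 4 * Real.log 2 := by
  push_cast
  rw [Real.log_pow]; push_cast; ring

theorem tend_log : Tendsto (fun j : ℕ => Real.log ((2 ^ (j ^ 4) : ℕ) : ℝ)) atTop atTop := by
  have h : (fun j : ℕ => Real.log ((2 ^ (j ^ 4) : ℕ) : ℝ)) = fun j : ℕ => (j : ℝ) ^ 4 * Real.log 2 := by
    funext j; exact log_pow j
  rw [h]
  apply Tendsto.atTop_mul_const (Real.log_pos (by norm_num))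
  exact (tendsto_pow_atTop (by norm_num)).comp tendsto_natCast_atTop_atTop

theorem tend_X : Tendsto (fun j : ℕ => 2 ^ (j ^ 4)) atTop (atTop : Filter ℕ) := by
  refine (tendsto_pow_atTop_atTop_of_one_lt (by norm_num)).comp ?_
  exact tendsto_pow_atTop (by norm_num)

/-- the deterministic part -/
theorem det (A : Set ℕ) (ε : ℝ) (h0 : 0 < ε) (h1 : ε ≤ 1)
    (h : ∀ᶠ j : ℕ in atTop, ∃ n : ℕ, n ≤ 2 * 2 ^ (j ^ 4) ∧
      Run A (kk ε (Real.log ((2 ^ (j ^ 4) : ℕ) : ℝ))) n (primorial (kk ε (Real.log ((2 ^ (j ^ 4) : ℕ) : ℝ))))) :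
    ∀ᶠ x : ℝ in atTop, ∃ k n d : ℕ, (2 - 2 * ε) * Real.log (Real.log x) ≤ k ∧
      Run A k n d ∧ ((n + (k - 1) * d : ℕ) : ℝ) ≤ x := by
  have hA := tend_log.eventually (lemA ε h0 h1)
  have hl2 : 0 < Real.log 2 := Real.log_pos (by norm_num)
  -- the choice of `j`
  set u : ℝ → ℝ := fun x => (Real.log (x / 3) / Real.log 2) ^ (1 / 4 : ℝ) with hu
  have hut : Tendsto u atTop atTop := by
    refine (tendsto_rpow_atTop (by norm_num)).comp ?_
    refine Tendsto.atTop_div_const hl2 ?_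
    exact Real.tendsto_log_atTop.comp (tendsto_id.atTop_div_const (by norm_num))
  have hjt : Tendsto (fun x => ⌊u x⌋₊) atTop atTop := tendsto_nat_floor_atTop.comp hut
  have hll : Tendsto (fun x : ℝ => ε * Real.log (Real.log x)) atTop atTop :=
    (Real.tendsto_log_atTop.comp Real.tendsto_log_atTop).const_mul_atTop h0
  filter_upwards [hjt.eventually h, hjt.eventually hA, hjt.eventually_ge_atTop 1,
    hll.eventually_ge_atTop ((2 - ε) * Real.log 18 + 1), eventually_gt_atTop (3 : ℝ),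
    Real.tendsto_log_atTop.eventually_gt_atTop 1] with x hx1 hx2 hx3 hx4 hx5 hx6
  obtain ⟨n, hn, hrun⟩ := hx1
  obtain ⟨hk1, -, hkd, hkX⟩ := hx2
  set j := ⌊u x⌋₊ with hj
  have hb : 0 ≤ Real.log (x / 3) / Real.log 2 :=
    div_nonneg (Real.log_nonneg (by rw [le_div_iff₀ (by norm_num)]; linarith)) hl2.le
  have hu0 : 0 ≤ u x := Real.rpow_nonneg hb _
  have hu4 : u x ^ 4 = Real.log (x / 3) / Real.log 2 := by
    simp only [hu]
    rw [← Real.rpow_natCast, ← Real.rpow_mul hb]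
    norm_num
  have hju : (j : ℝ) ≤ u x := Nat.floor_le hu0
  have hju2 : u x < (j : ℝ) + 1 := Nat.lt_floor_add_one _
  have hj1 : (1 : ℝ) ≤ j := by exact_mod_cast hx3
  set L := Real.log ((2 ^ (j ^ 4) : ℕ) : ℝ) with hL
  have hLe : L = (j : ℝ) ^ 4 * Real.log 2 := log_pow j
  have hXpos : (0 : ℝ) < ((2 ^ (j ^ 4) : ℕ) : ℝ) := by positivity
  -- 3 * 2 ^ (j ^ 4) ≤ x
  have h3x : 3 * ((2 ^ (j ^ 4) : ℕ) : ℝ) ≤ x := by
    have h4 : (j : ℝ) ^ 4 ≤ Real.log (x / 3) / Real.log 2 := by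
      rw [← hu4]; exact pow_le_pow_left₀ (by linarith) hju 4
    rw [le_div_iff₀ hl2, ← hLe, hL, Real.log_le_log_iff hXpos (by linarith)] at h4
    rw [le_div_iff₀ (by norm_num)] at h4
    linarith
  -- log x ≤ 18 L
  have hlx : Real.log x ≤ 18 * L := by
    have h4 : Real.log (x / 3) / Real.log 2 ≤ ((j : ℝ) + 1) ^ 4 := by
      rw [← hu4]; exact pow_le_pow_left₀ hu0 hju2.le 4
    rw [div_le_iff₀ hl2, Real.log_div (by linarith) (by norm_num)] at h4
    have h5 : Real.log 3 ≤ 2 * Real.log 2 := by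
      have : Real.log 3 ≤ Real.log (2 ^ 2) := Real.log_le_log (by norm_num) (by norm_num)
      rw [Real.log_pow] at this
      exact_mod_cast this
    have h6 : ((j : ℝ) + 1) ^ 4 ≤ 16 * (j : ℝ) ^ 4 := by
      have : ((j : ℝ) + 1) ^ 4 ≤ (2 * (j : ℝ)) ^ 4 := pow_le_pow_left₀ (by linarith) (by linarith) 4
      calc ((j : ℝ) + 1) ^ 4 ≤ (2 * (j : ℝ)) ^ 4 := this
        _ = 16 * (j : ℝ) ^ 4 := by ring
    have h7 : (1 : ℝ) ≤ (j : ℝ) ^ 4 := one_le_pow₀ hj1
    rw [hLe]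
    nlinarith
  have hLpos : 0 < L := by linarith
  refine ⟨kk ε L, n, primorial (kk ε L), ?_, hrun, ?_⟩
  · have h8 : Real.log (Real.log x) ≤ Real.log 18 + Real.log L := by
      rw [← Real.log_mul (by norm_num) hLpos.ne']
      exact Real.log_le_log (by linarith) hlx
    have h9 : (2 - ε) * Real.log L < (kk ε L : ℝ) + 1 := Nat.lt_floor_add_one _
    nlinarith
  · have h10 : (((kk ε L - 1) * primorial (kk ε L) : ℕ) : ℝ) ≤ ((2 ^ (j ^ 4) : ℕ) : ℝ) := by
      calc _ ≤ L ^ (2 - ε / 2) := hkd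
        _ ≤ Real.exp L := hkX
        _ = _ := Real.exp_log hXpos
    have h11 : (n : ℝ) ≤ 2 * ((2 ^ (j ^ 4) : ℕ) : ℝ) := by exact_mod_cast hn
    rw [Nat.cast_add]
    linarith

theorem t_LOW.{u} (hP : S_PRB.{u}) : S_LOW.{u} := by
  intro Ω _ μ _ a ha hind hunif
  -- one `ε`
  have key : ∀ ε : ℝ, 0 < ε → ε ≤ 1 → ∀ᵐ ω ∂μ, ∀ᶠ j : ℕ in atTop,
      ∃ n : ℕ, 2 ^ (j ^ 4) < n ∧ n ≤ 2 * 2 ^ (j ^ 4) ∧
        Ex (model fun p => a p ω) n
          ((kk ε (Real.log ((2 ^ (j ^ 4) : ℕ) : ℝ)) - 1) * primorial (kk ε (Real.log ((2 ^ (j ^ 4) : ℕ) : ℝ))))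
          ((range (kk ε (Real.log ((2 ^ (j ^ 4) : ℕ) : ℝ)))).image
            (fun i => i * primorial (kk ε (Real.log ((2 ^ (j ^ 4) : ℕ) : ℝ))))) := by
    intro ε h0 h1
    obtain ⟨X₀, hX₀⟩ := hP (ε / 2) (by linarith) (by linarith)
    have hev : ∀ᶠ j : ℕ in atTop, μ {ω | ¬ ∃ n : ℕ, 2 ^ (j ^ 4) < n ∧ n ≤ 2 * 2 ^ (j ^ 4) ∧
        Ex (model fun p => a p ω) n
          ((kk ε (Real.log ((2 ^ (j ^ 4) : ℕ) : ℝ)) - 1) * primorial (kk ε (Real.log ((2 ^ (j ^ 4) : ℕ) : ℝ))))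
          ((range (kk ε (Real.log ((2 ^ (j ^ 4) : ℕ) : ℝ)))).image
            (fun i => i * primorial (kk ε (Real.log ((2 ^ (j ^ 4) : ℕ) : ℝ)))))} ≤
        ENNReal.ofReal (3 * Real.log ((2 ^ (j ^ 4) : ℕ) : ℝ) ^ (-(1 / 2) : ℝ)) := by
      filter_upwards [tend_log.eventually (lemA ε h0 h1), tend_X.eventually_ge_atTop X₀] with j hj1 hj2
      obtain ⟨hk1, hk2, hk3, -⟩ := hj1
      refine hX₀ (2 ^ (j ^ 4)) hj2 _ _ hk3 ?_ ?_ (fun p hp => adm _ p hp) μ a ha hind hunif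
      · intro t ht
        obtain ⟨i, hi, rfl⟩ := mem_image.1 ht
        rw [mem_range] at hi ⊢
        have : i * primorial (kk ε (Real.log ((2 ^ (j ^ 4) : ℕ) : ℝ))) ≤
          (kk ε (Real.log ((2 ^ (j ^ 4) : ℕ) : ℝ)) - 1) * primorial (kk ε (Real.log ((2 ^ (j ^ 4) : ℕ) : ℝ))) :=
          Nat.mul_le_mul_right _ (by omega)
        exact Nat.lt_succ_of_le this
      · refine le_trans ?_ hk2
        have : ((range (kk ε (Real.log ((2 ^ (j ^ 4) : ℕ) : ℝ)))).image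
            (fun i => i * primorial (kk ε (Real.log ((2 ^ (j ^ 4) : ℕ) : ℝ))))).card ≤
            kk ε (Real.log ((2 ^ (j ^ 4) : ℕ) : ℝ)) := by
          calc _ ≤ (range (kk ε (Real.log ((2 ^ (j ^ 4) : ℕ) : ℝ)))).card := card_image_le
            _ = _ := card_range _
        exact_mod_cast this
    obtain ⟨J, hJ⟩ := eventually_atTop.1 hev
    -- summability
    have hsum : Summable (fun i : ℕ => (6 : ℝ) / ((i : ℝ) + 1) ^ 2) := by
      have h := (Real.summable_one_div_nat_pow (p := 2)).2 (by norm_num)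
      have h2 := ((summable_nat_add_iff 1).2 h).mul_left 6
      refine h2.congr ?_
      intro i
      push_cast
      ring
    have hbd : ∀ i : ℕ, ENNReal.ofReal (3 * Real.log ((2 ^ ((i + (J + 1)) ^ 4) : ℕ) : ℝ) ^ (-(1 / 2) : ℝ)) ≤
        ENNReal.ofReal ((6 : ℝ) / ((i : ℝ) + 1) ^ 2) := by
      intro i
      apply ENNReal.ofReal_le_ofReal
      rw [log_pow]
      have hl2 : 0.6931471803 < Real.log 2 := Real.log_two_gt_d9
      set y : ℝ := ((i + (J + 1) : ℕ) : ℝ) with hy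
      have hy1 : (i : ℝ) + 1 ≤ y := by
        rw [hy]; push_cast; nlinarith [(Nat.cast_nonneg J : (0 : ℝ) ≤ J)]
      have hi0 : (0 : ℝ) < (i : ℝ) + 1 := by positivity
      have hy0 : 0 < y := by linarith
      have h1 : (y ^ 2 / 2) ^ 2 ≤ y ^ 4 * Real.log 2 := by
        have : (y ^ 2 / 2) ^ 2 = y ^ 4 * (1 / 4) := by ring
        rw [this]
        apply mul_le_mul_of_nonneg_left _ (by positivity)
        linarith
      have h2 : (y ^ 4 * Real.log 2) ^ (-(1 / 2) : ℝ) ≤ 2 / y ^ 2 := by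
        calc (y ^ 4 * Real.log 2) ^ (-(1 / 2) : ℝ) ≤ ((y ^ 2 / 2) ^ 2) ^ (-(1 / 2) : ℝ) := by
              apply Real.rpow_le_rpow_of_nonpos (by positivity) h1 (by norm_num)
          _ = (y ^ 2 / 2)⁻¹ := by
              rw [← Real.rpow_natCast, ← Real.rpow_mul (by positivity)]
              norm_num
              rw [Real.rpow_neg_one]
              field_simp
          _ = 2 / y ^ 2 := by field_simp
      calc 3 * (y ^ 4 * Real.log 2) ^ (-(1 / 2) : ℝ) ≤ 3 * (2 / y ^ 2) := by linarith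
        _ = 6 / y ^ 2 := by ring
        _ ≤ 6 / ((i : ℝ) + 1) ^ 2 := by
            apply div_le_div_of_nonneg_left (by norm_num) (by positivity)
            exact pow_le_pow_left₀ hi0.le hy1 2
    have hBC := ae_eventually_notMem (μ := μ) (s := fun i : ℕ => {ω | ¬ ∃ n : ℕ, 2 ^ ((i + (J + 1)) ^ 4) < n ∧ n ≤ 2 * 2 ^ ((i + (J + 1)) ^ 4) ∧
        Ex (model fun p => a p ω) n
          ((kk ε (Real.log ((2 ^ ((i + (J + 1)) ^ 4) : ℕ) : ℝ)) - 1) * primorial (kk ε (Real.log ((2 ^ ((i + (J + 1)) ^ 4) : ℕ) : ℝ))))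
          ((range (kk ε (Real.log ((2 ^ ((i + (J + 1)) ^ 4) : ℕ) : ℝ)))).image
            (fun i' => i' * primorial (kk ε (Real.log ((2 ^ ((i + (J + 1)) ^ 4) : ℕ) : ℝ)))))}) (by
        refine ne_top_of_le_ne_top hsum.tsum_ofReal_ne_top ?_
        refine ENNReal.tsum_le_tsum ?_
        intro i
        exact (hJ (i + (J + 1)) (by omega)).trans (hbd i))
    filter_upwards [hBC] with ω hω
    obtain ⟨N, hN⟩ := eventually_atTop.1 hω
    refine eventually_atTop.2 ⟨N + (J + 1), ?_⟩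
    intro j hj
    have h := hN (j - (J + 1)) (by omega)
    rw [show j - (J + 1) + (J + 1) = j by omega] at h
    simp only [not_not] at h
    exact h
  have hall : ∀ᵐ ω ∂μ, ∀ i : ℕ, ∀ᶠ j : ℕ in atTop,
      ∃ n : ℕ, 2 ^ (j ^ 4) < n ∧ n ≤ 2 * 2 ^ (j ^ 4) ∧
        Ex (model fun p => a p ω) n
          ((kk (1 / ((i : ℝ) + 1)) (Real.log ((2 ^ (j ^ 4) : ℕ) : ℝ)) - 1) * primorial (kk (1 / ((i : ℝ) + 1)) (Real.log ((2 ^ (j ^ 4) : ℕ) : ℝ))))
          ((range (kk (1 / ((i : ℝ) + 1)) (Real.log ((2 ^ (j ^ 4) : ℕ) : ℝ)))).image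
            (fun i' => i' * primorial (kk (1 / ((i : ℝ) + 1)) (Real.log ((2 ^ (j ^ 4) : ℕ) : ℝ))))) := by
    rw [ae_all_iff]
    intro i
    refine key (1 / ((i : ℝ) + 1)) (by positivity) ?_
    rw [div_le_one (by positivity)]
    have : (0 : ℝ) ≤ i := Nat.cast_nonneg i
    linarith
  filter_upwards [hall] with ω hω
  intro ε hε
  obtain ⟨i, hi⟩ := exists_nat_one_div_lt (show 0 < ε / 2 by linarith)
  have hi0 : (0 : ℝ) < 1 / ((i : ℝ) + 1) := by positivity
  have hi1 : 1 / ((i : ℝ) + 1) ≤ 1 := by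
    rw [div_le_one (by positivity)]
    have : (0 : ℝ) ≤ i := Nat.cast_nonneg i
    linarith
  have hd := det (model fun p => a p ω) (1 / ((i : ℝ) + 1)) hi0 hi1 (by
    filter_upwards [hω i] with j hj
    obtain ⟨n, -, hn2, hn3⟩ := hj
    exact ⟨n, hn2, run_of_ex _ _ _ _ (primorial_pos _) hn3⟩)
  filter_upwards [hd, (Real.tendsto_log_atTop.comp Real.tendsto_log_atTop).eventually_ge_atTop 0] with x hx hx0
  obtain ⟨k, n, d, h1, h2, h3⟩ := hx
  refine ⟨k, n, d, ?_, h2, h3⟩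
  simp only [Function.comp] at hx0
  nlinarith

end Pool.Agent.V5helper6.LR
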